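import Pool.Agent.Helper759.FG.Lamp

/-!
# Q1 is equivalent to its strengthening with hypothesis: the Følner function is at most exponential
-/

set_option autoImplicit false

namespace Pool.Agent.Results.MP_4dac8d_al.ExpReduction

open scoped Pointwise
open Pool.Agent.Helper759.FG

section
variable {G : Type*} [Group G]

/-- the ball of radius `n` about the identity -/
def Ball (S : Finset G) (n : ℕ) : Set G :=
  {g | ∃ l : List G, l.length ≤ n ∧ (∀ x ∈ l, x ∈ S ∨ x⁻¹ ∈ S) ∧ l.prod = g}

/-- the growth function -/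
noncomputable def V (S : Finset G) (n : ℕ) : ℕ := Nat.card (Ball S n)

open Classical in
/-- `F` is nonempty and `n |F (S ∪ S⁻¹) \ F| ≤ |F|` -/
def IsFolner (S : Finset G) (n : ℕ) (F : Finset G) : Prop :=
  F.Nonempty ∧ n * ((F * (S ∪ S⁻¹)) \ F).card ≤ F.card

/-- the Følner function (`0` if there is no set) -/
noncomputable def Fol (S : Finset G) (n : ℕ) : ℕ :=
  sInf {k : ℕ | ∃ F : Finset G, IsFolner S n F ∧ F.card = k}

/-- the hypothesis of the question: the Følner function is equivalent to the growth function -/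
def FolEquivGrowth (S : Finset G) : Prop :=
  ∃ C : ℕ, 0 < C ∧ ∀ n : ℕ, Fol S n ≤ C * V S (C * n) ∧ V S n ≤ C * Fol S (C * n)

/-- the Følner function is at most exponential (in particular the group is amenable) -/
def FolAtMostExp (S : Finset G) : Prop :=
  ∃ C : ℕ, ∀ n : ℕ, ∃ F : Finset G, IsFolner S n F ∧ F.card ≤ C ^ (n + 1)

/-- finite Assouad-Nagata dimension of the word metric: for some `m`, `c` and every `r > 0` there
is a colouring with `m + 1` colours and a partition (the fibres of `p`) such that two elements of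
the same colour at distance at most `r` lie in the same part, and parts have diameter at most
`c r` -/
def FiniteAN (S : Finset G) : Prop :=
  ∃ m c : ℕ, ∀ r : ℕ, 0 < r →
    ∃ (col : G → Fin (m + 1)) (p : G → G),
      (∀ g h : G, col g = col h →
        (∃ l : List G, l.length ≤ r ∧ (∀ x ∈ l, x ∈ S ∨ x⁻¹ ∈ S) ∧ g * l.prod = h) →
        p g = p h) ∧
      (∀ g h : G, p g = p h →
        ∃ l : List G, l.length ≤ c * r ∧ (∀ x ∈ l, x ∈ S ∨ x⁻¹ ∈ S) ∧ g * l.prod = h)

end

/-- **Q1**: a finitely generated group whose Følner function is equivalent to its growth function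
has finite Assouad-Nagata dimension -/
def Q1 : Prop :=
  ∀ (G : Type) [Group G] (S : Finset G), Subgroup.closure (S : Set G) = ⊤ →
    FolEquivGrowth S → FiniteAN S

/-- the formal strengthening: a finitely generated group whose Følner function is at most
exponential has finite Assouad-Nagata dimension -/
def QExp : Prop :=
  ∀ (G : Type) [Group G] (S : Finset G), Subgroup.closure (S : Set G) = ⊤ →
    FolAtMostExp S → FiniteAN S

theorem fol_eq {G : Type*} [Group G] (S : Finset G) (n : ℕ) : Fol S n = fol S n := by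
  classical
  unfold Fol fol
  congr 1
  ext k
  constructor
  · rintro ⟨F, h1, h2⟩
    exact ⟨F, h1.1, h2, h1.2⟩
  · rintro ⟨F, h1, h2, h3⟩
    exact ⟨F, ⟨h1, h3⟩, h2⟩

/-- equivalence with the growth function implies at most exponential -/
theorem atMostExp_of_equiv {G : Type*} [Group G] (S : Finset G) (h : FolEquivGrowth S) :
    FolAtMostExp S := by
  obtain ⟨C, hC, h⟩ := h
  refine ⟨C * (2 * S.card + 1) ^ (C * C), fun n => ?_⟩
  have h1 := h n
  have h2 := (h (C * n)).1
  rw [fol_eq] at h1 h2
  have hpos : 0 < fol S (C * n) := by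
    rcases Nat.eq_zero_or_pos (fol S (C * n)) with h3 | h3
    · have h4 : V S n ≤ C * fol S (C * n) := by
        have := h1.2
        rwa [fol_eq] at this
      rw [h3, Nat.mul_zero] at h4
      have h5 : 0 < V S n := gr_pos S n
      omega
    · exact h3
  obtain ⟨F, hF, hcard⟩ := exists_of_fol_pos S hpos
  refine ⟨F, hF.mono (Nat.le_mul_of_pos_left n hC), ?_⟩
  rw [hcard]
  refine h2.trans ?_
  have h3 : V S (C * (C * n)) ≤ (2 * S.card + 1) ^ (C * (C * n)) := gr_le S _
  calc C * V S (C * (C * n)) ≤ C * (2 * S.card + 1) ^ (C * (C * n)) := Nat.mul_le_mul_left _ h3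
    _ = C * ((2 * S.card + 1) ^ (C * C)) ^ n := by
        rw [← pow_mul, mul_assoc C C n]
    _ ≤ C ^ (n + 1) * ((2 * S.card + 1) ^ (C * C)) ^ (n + 1) := by
        refine Nat.mul_le_mul ?_ (Nat.pow_le_pow_right (by positivity) (by omega))
        exact Nat.le_self_pow (by omega) C
    _ = (C * (2 * S.card + 1) ^ (C * C)) ^ (n + 1) := (mul_pow _ _ _).symm

/-- the product with the lamplighter group satisfies the hypothesis of Q1 -/
theorem equiv_prod {G : Type*} [Group G] (S : Finset G) (h : FolAtMostExp S) :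
    FolEquivGrowth (pgen S LT) := by
  classical
  obtain ⟨A, h⟩ := h
  have hex : ∀ n, ∃ F : Finset (G × R636.Fol.Lamp), IsFol (pgen S LT) n F ∧
      F.card ≤ A ^ (2 * n + 1) * 1024 ^ (2 * n) := by
    intro n
    obtain ⟨F, hF, hFc⟩ := h (2 * n)
    obtain ⟨D, hD, hDc⟩ := lamp_fol (2 * n)
    refine ⟨F ×ˢ D, isFol_prod S LT hF hD, ?_⟩
    rw [Finset.card_product]
    exact Nat.mul_le_mul hFc hDc
  set B : ℕ := (A + 1) * (A + 1) * 1024 * 1024 with hB
  have hB1 : 1 ≤ B := by
    rw [hB]
    have : 1 ≤ (A + 1) * (A + 1) := Nat.one_le_iff_ne_zero.2 (by positivity)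
    omega
  have hB2 : 2 ≤ B := by
    rw [hB]
    have : 1 ≤ (A + 1) * (A + 1) := Nat.one_le_iff_ne_zero.2 (by positivity)
    omega
  have hAB : A ≤ B := by
    rw [hB]
    have : A ≤ (A + 1) * (A + 1) := by nlinarith
    omega
  refine ⟨B, by omega, fun n => ⟨?_, ?_⟩⟩
  · rw [fol_eq]
    obtain ⟨F, hF, hFc⟩ := hex n
    refine (fol_le _ hF).trans (hFc.trans ?_)
    have h1 : A ^ (2 * n + 1) * 1024 ^ (2 * n) ≤ B * B ^ n := by
      calc A ^ (2 * n + 1) * 1024 ^ (2 * n) = A * (A * A * 1024 * 1024) ^ n := by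
            rw [pow_succ, pow_mul, pow_mul]
            rw [show A * A * 1024 * 1024 = A ^ 2 * 1024 ^ 2 by ring, mul_pow]
            ring
        _ ≤ B * B ^ n := by
            refine Nat.mul_le_mul hAB (Nat.pow_le_pow_left ?_ n)
            rw [hB]
            gcongr <;> omega
    refine h1.trans (Nat.mul_le_mul_left _ ?_)
    have h2 : B ^ n ≤ 2 ^ (B * n) := by
      rw [pow_mul]
      exact Nat.pow_le_pow_left Nat.lt_two_pow_self.le n
    refine h2.trans ?_
    exact (lamp_growth (B * n)).trans (gr_snd_le S LT (B * n))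
  · rw [fol_eq]
    obtain ⟨F, hF, hFc⟩ := hex (B * n)
    obtain ⟨F', hF', hF'c⟩ := exists_of_fol_pos (pgen S LT) (fol_pos _ hF)
    rw [← hF'c]
    have h1 : gr (pgen S LT) n ≤ 2 * F'.card :=
      gr_le_of_isFol (pgen S LT) (Nat.mul_le_mul_right n hB2) hF'
    exact h1.trans (Nat.mul_le_mul_right _ hB2)

/-- colourings of a product restrict to the first factor -/
theorem an_of_prod {G L : Type*} [Group G] [Group L] (S : Finset G) (T : Finset L)
    (h : FiniteAN (pgen S T)) : FiniteAN S := by
  classical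
  obtain ⟨m, c, h⟩ := h
  refine ⟨m, c, fun r hr => ?_⟩
  obtain ⟨col, p, h1, h2⟩ := h r hr
  set rep : G × L → G := fun v => if hv : ∃ g : G, p (g, 1) = v then hv.choose else 1 with hrep
  have hrep1 : ∀ g : G, p (rep (p (g, 1)), 1) = p (g, 1) := by
    intro g
    have hv : ∃ g' : G, p (g', 1) = p (g, 1) := ⟨g, rfl⟩
    have e1 : rep (p (g, 1)) = hv.choose := by
      rw [hrep]
      exact dif_pos hv
    rw [e1]
    exact hv.choose_spec
  refine ⟨fun g => col (g, 1), fun g => rep (p (g, 1)), ?_, ?_⟩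
  · rintro g g' hcol ⟨l, hl1, hl2, hl3⟩
    have hb : l.prod ∈ ball S r := ⟨l, hl1, hl2, rfl⟩
    obtain ⟨l', h3, h4, h5⟩ := inl_mem_ball S T hb
    have h6 := h1 (g, 1) (g', 1) hcol ⟨l', h3, h4, by rw [h5]; ext <;> simp [hl3]⟩
    change rep (p (g, 1)) = rep (p (g', 1))
    rw [h6]
  · intro g g' hgg
    have h3 : p (g, 1) = p (g', 1) := by
      have e1 := hrep1 g
      have e2 := hrep1 g'
      have e3 : rep (p (g, 1)) = rep (p (g', 1)) := hgg
      rw [e3] at e1
      exact e1.symm.trans e2
    obtain ⟨l, hl1, hl2, hl3⟩ := h2 (g, 1) (g', 1) h3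
    have hb : l.prod ∈ ball (pgen S T) (c * r) := ⟨l, hl1, hl2, rfl⟩
    obtain ⟨l', h4, h5, h6⟩ := fst_mem_ball S T hb
    refine ⟨l', h4, h5, ?_⟩
    rw [h6]
    exact congrArg Prod.fst hl3

/-- **Theorem.** Q1 is equivalent to the statement that every finitely generated group whose
Følner function is at most exponential has finite Assouad-Nagata dimension. -/
theorem result : Q1 ↔ QExp := by
  constructor
  · intro hQ G _ S hS hexp
    refine an_of_prod S LT ?_
    exact hQ (G × R636.Fol.Lamp) (pgen S LT) (closure_pgen hS lamp_closure) (equiv_prod S hexp)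
  · intro hQ G _ S hS heq
    exact hQ G S hS (atMostExp_of_equiv S heq)

end Pool.Agent.Results.MP_4dac8d_al.ExpReduction
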