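import Pool.Agent.Results.MP_0d61b9_al.GrigorchukSubquotients
import Pool.Agent.Helper759.FG.Basic

/-!
# Groups with a Grigorchuk group as a subquotient: the Folner function is not equivalent to the growth
-/

set_option autoImplicit false

namespace Pool.Agent.Results.MP_4dac8d_al.GrigorchukSubquot

open scoped Pointwise
open Pool.Agent.Helper759.FG

/-! ### The groups `G_w`.  The letters `0`, `1` of the binary tree are `false`, `true`. -/

/-- `a(xv) = (1-x)v` -/
def aMap : List Bool → List Bool
  | [] => []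
  | x :: v => (!x) :: v

/-- `ω_0 = (a,a,1)`, `ω_1 = (a,1,a)`, `ω_2 = (1,a,a)` -/
def omega : Fin 3 → Fin 3 → (List Bool → List Bool)
  | 0 => ![aMap, aMap, id]
  | 1 => ![aMap, id, aMap]
  | 2 => ![id, aMap, aMap]

/-- the maps `b_w`, `c_w`, `d_w`, for `j = 0, 1, 2` -/
def bcd (j : Fin 3) : List Bool → (ℕ → Fin 3) → List Bool
  | [], _ => []
  | false :: v, w => false :: omega (w 0) j v
  | true :: v, w => true :: bcd j v (fun n => w (n + 1))

theorem aMap_invol : Function.Involutive aMap := by
  rintro (_ | ⟨x, v⟩) <;> simp [aMap]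

theorem omega_invol (i j : Fin 3) : Function.Involutive (omega i j) := by
  intro v
  fin_cases i <;> fin_cases j <;> first | exact aMap_invol v | rfl

theorem bcd_invol (j : Fin 3) (w : ℕ → Fin 3) : Function.Involutive fun v => bcd j v w := by
  intro v
  induction v generalizing w with
  | nil => rfl
  | cons x v ih =>
    cases x
    · change false :: omega (w 0) j (omega (w 0) j v) = _
      rw [omega_invol]
    · change true :: bcd j (bcd j v _) _ = _
      exact congrArg _ (ih _)

/-- the generator `a`, as a permutation of the finite binary words -/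
def a : Equiv.Perm (List Bool) := aMap_invol.toPerm

/-- the generators `b_w`, `c_w`, `d_w` -/
def gen (w : ℕ → Fin 3) (j : Fin 3) : Equiv.Perm (List Bool) := (bcd_invol j w).toPerm

/-- the group `G_w = ⟨a, b_w, c_w, d_w⟩` -/
def Gw (w : ℕ → Fin 3) : Subgroup (Equiv.Perm (List Bool)) :=
  Subgroup.closure {a, gen w 0, gen w 1, gen w 2}

/-! ### Følner function and growth function -/

section
variable {Γ : Type*} [Group Γ]

/-- the ball of radius `n` about the identity -/
def Ball (S : Finset Γ) (n : ℕ) : Set Γ :=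
  {g | ∃ l : List Γ, l.length ≤ n ∧ (∀ x ∈ l, x ∈ S ∨ x⁻¹ ∈ S) ∧ l.prod = g}

/-- the growth function -/
noncomputable def V (S : Finset Γ) (n : ℕ) : ℕ := Nat.card (Ball S n)

open Classical in
/-- the Følner function: the least `|F|` over the finite nonempty `F` with
`n |F (S ∪ S⁻¹) \ F| ≤ |F|` -/
noncomputable def Fol (S : Finset Γ) (n : ℕ) : ℕ :=
  sInf {k : ℕ | ∃ F : Finset Γ, F.Nonempty ∧ F.card = k ∧
    n * ((F * (S ∪ S⁻¹)) \ F).card ≤ F.card}

/-- the hypothesis of the question: the Følner function is equivalent to the growth function -/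
def FolEquivGrowth (S : Finset Γ) : Prop :=
  ∃ C : ℕ, 0 < C ∧ ∀ n : ℕ, Fol S n ≤ C * V S (C * n) ∧ V S n ≤ C * Fol S (C * n)

end

/-! ### Comparison -/

theorem omega_eq (i j : Fin 3) (v : List Bool) :
    omega i j v = Pool.Agent.Results.MP_0d61b9_al.GrigorchukSubquotients.omega i j v := by
  have h : aMap = Pool.Agent.Results.MP_0d61b9_al.GrigorchukSubquotients.aMap := by
    funext v
    rcases v with _ | ⟨x, v⟩ <;> rfl
  fin_cases i <;> fin_cases j <;>
    simp [omega, Pool.Agent.Results.MP_0d61b9_al.GrigorchukSubquotients.omega, h]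

theorem gen_eq (w : ℕ → Fin 3) (j : Fin 3) :
    gen w j = Pool.Agent.Results.MP_0d61b9_al.GrigorchukSubquotients.gen w j := by
  ext1 v
  change bcd j v w = Pool.Agent.Results.MP_0d61b9_al.GrigorchukSubquotients.bcd j v w
  induction v generalizing w with
  | nil => rfl
  | cons x v ih =>
    cases x
    · change false :: omega (w 0) j v = false :: _
      rw [omega_eq]
    · change true :: _ = true :: _
      rw [ih]

theorem Gw_eq (w : ℕ → Fin 3) :
    Gw w = Pool.Agent.Results.MP_0d61b9_al.GrigorchukSubquotients.G w := by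
  have ha : a = Pool.Agent.Results.MP_0d61b9_al.GrigorchukSubquotients.a := by
    ext1 v
    rcases v with _ | ⟨x, v⟩ <;> rfl
  unfold Gw Pool.Agent.Results.MP_0d61b9_al.GrigorchukSubquotients.G
    Pool.Agent.Results.MP_0d61b9_al.GrigorchukSubquotients.gens
  rw [ha, gen_eq, gen_eq, gen_eq]

/-- the inner boundary is at most `|S|` times the outer boundary -/
theorem inner_le {Γ : Type*} [Group Γ] (S F : Finset Γ) :
    Nat.card {g : Γ // g ∈ F ∧ ∃ s ∈ S, g * s ∉ F} ≤
      S.card * (haveI := Classical.decEq Γ; ((F * (S ∪ S⁻¹)) \ F).card) := by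
  classical
  have h : Nat.card {g : Γ // g ∈ F ∧ ∃ s ∈ S, g * s ∉ F} =
      (F.filter fun z => ∃ s ∈ S, z * s ∉ F).card := by
    refine Nat.subtype_card _ fun x => ?_
    rw [Finset.mem_filter]
  rw [h]
  have h1 : (F.filter fun z => ∃ s ∈ S, z * s ∉ F) ⊆
      S.biUnion fun s => F.filter fun z => z * s ∉ F := by
    intro z hz
    rw [Finset.mem_filter] at hz
    obtain ⟨hz1, s, hs, hzs⟩ := hz
    exact Finset.mem_biUnion.2 ⟨s, hs, Finset.mem_filter.2 ⟨hz1, hzs⟩⟩
  refine (Finset.card_le_card h1).trans ((Finset.card_biUnion_le).trans ?_)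
  refine (Finset.sum_le_card_nsmul _ _ ((F * (S ∪ S⁻¹)) \ F).card fun s hs => ?_).trans ?_
  · exact (leave_gen S F (Or.inl hs)).trans (le_of_eq (by congr!))
  · rw [smul_eq_mul]

/-- **Theorem.** Let `Γ` be a group with a finite generating set `S`, some subgroup `H` of which
has a Grigorchuk group `G_w` as a quotient, where `w` is not eventually constant. Then the Følner
function of `Γ` is not equivalent to its growth function. -/
theorem result (w : ℕ → Fin 3) (hw : ¬ ∃ (i : Fin 3) (N : ℕ), ∀ n ≥ N, w n = i)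
    {Γ : Type*} [Group Γ] (S : Finset Γ) (hS : Subgroup.closure (S : Set Γ) = ⊤)
    (H : Subgroup Γ) (π : H →* Gw w) (hπ : Function.Surjective π) :
    ¬ FolEquivGrowth S := by
  classical
  rintro ⟨C, hC, hyp⟩
  have hπ' : ∃ π' : H →* Pool.Agent.Results.MP_0d61b9_al.GrigorchukSubquotients.G w,
      Function.Surjective π' :=
    ⟨(MulEquiv.subgroupCongr (Gw_eq w)).toMonoidHom.comp π,
      (MulEquiv.subgroupCongr (Gw_eq w)).surjective.comp hπ⟩
  obtain ⟨π', hπ'⟩ := hπ'
  have hmain := (Pool.Agent.Results.MP_0d61b9_al.GrigorchukSubquotients.result w hw S hS H π'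
    hπ').1
  set A : ℝ := Real.log (2 * S.card + 1) with hA
  have hA0 : 0 ≤ A := Real.log_nonneg (by
    have : (0 : ℝ) ≤ S.card := Nat.cast_nonneg _
    linarith)
  set D : ℝ := max C ((C : ℝ) * C * S.card * A) with hD
  obtain ⟨N, hN⟩ := hmain D
  -- the Følner function at `C * (S.card * N)`
  have h1 := hyp (S.card * N)
  have hVpos : 0 < V S (S.card * N) := gr_pos S _
  have hFpos : 0 < fol S (C * (S.card * N)) := by
    have h2 : V S (S.card * N) ≤ C * fol S (C * (S.card * N)) := h1.2
    rcases Nat.eq_zero_or_pos (fol S (C * (S.card * N))) with h3 | h3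
    · rw [h3, Nat.mul_zero] at h2
      omega
    · exact h3
  obtain ⟨F, hF, hcard⟩ := exists_of_fol_pos S hFpos
  have h2 : fol S (C * (S.card * N)) ≤ C * gr S (C * (C * (S.card * N))) :=
    (hyp (C * (S.card * N))).1
  have h3 := hN F hF.1 (by
    unfold Pool.Agent.Results.MP_0d61b9_al.GrigorchukSubquotients.IsFolner
    refine (Nat.mul_le_mul_left N (inner_le S F)).trans ?_
    refine le_trans ?_ hF.2
    rw [← mul_assoc, Nat.mul_comm N]
    refine le_trans ?_ (Nat.mul_le_mul_right _ (Nat.le_mul_of_pos_left (S.card * N) hC))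
    exact le_of_eq (by congr!))
  have h4 : (F.card : ℝ) ≤ C * (2 * S.card + 1 : ℝ) ^ (C * (C * (S.card * N))) := by
    have h5 : F.card ≤ C * (2 * S.card + 1) ^ (C * (C * (S.card * N))) := by
      rw [hcard]
      exact h2.trans (Nat.mul_le_mul_left _ (gr_le S _))
    exact_mod_cast h5
  have hpos : (0 : ℝ) < 2 * S.card + 1 := by positivity
  have h6 : (2 * S.card + 1 : ℝ) ^ (C * (C * (S.card * N))) =
      Real.exp (C * C * S.card * A * N) := by
    rw [← Real.exp_log (pow_pos hpos _), Real.log_pow, ← hA]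
    congr 1
    push_cast
    ring
  rw [h6] at h4
  have hN0 : (0 : ℝ) ≤ N := Nat.cast_nonneg N
  have h7 : Real.exp (C * C * S.card * A * N) ≤ Real.exp (D * N) := by
    apply Real.exp_le_exp.2
    exact mul_le_mul_of_nonneg_right (le_max_right _ _) hN0
  have h8 : (C : ℝ) ≤ D := le_max_left _ _
  have hC0 : (0 : ℝ) ≤ C := Nat.cast_nonneg C
  have h9 : (C : ℝ) * Real.exp (C * C * S.card * A * N) ≤ D * Real.exp (D * N) :=
    mul_le_mul h8 h7 (Real.exp_pos _).le (hC0.trans h8)
  linarith

end Pool.Agent.Results.MP_4dac8d_al.GrigorchukSubquot
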